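import Mathlib
import Pool.Agent.Run7.h196.ACBound

set_option autoImplicit false

/-!
# The coefficient problem for `α`-convex (Mocanu) functions, `0 < α < 1`
-/

namespace Pool.Agent.Results.MP_1f2de8_an.SharpBounds

open Metric

/-- The class `M(α)`: the functions `f` that are analytic and univalent in the unit disc, with
`f 0 = 0`, `f' 0 = 1` and
`Re (α (1 + z f'' z / f' z) + (1 - α) z f' z / f z) > 0` for all `z ≠ 0` in the disc (at `z = 0`
the expression has the value `1` in the limit). -/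
def AlphaConvex (α : ℝ) : Set (ℂ → ℂ) :=
  {f | DifferentiableOn ℂ f (ball 0 1) ∧ Set.InjOn f (ball 0 1) ∧ f 0 = 0 ∧ deriv f 0 = 1 ∧
    ∀ z ∈ ball (0 : ℂ) 1, z ≠ 0 →
      0 < (α * (1 + z * deriv (deriv f) z / deriv f z) + (1 - α) * (z * deriv f z / f z)).re}

/-- The `n`-th Taylor coefficient of `f` at `0`. -/
noncomputable def taylorCoeff (f : ℂ → ℂ) (n : ℕ) : ℂ := iteratedDeriv n f 0 / n.factorial

/-- `A_n(α)`, the supremum of `|a_n|` over `M(α)`. -/
noncomputable def A (α : ℝ) (n : ℕ) : ℝ := sSup {x | ∃ f ∈ AlphaConvex α, x = ‖taylorCoeff f n‖}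

/-- The numbers `b_k = (2/α) (2/α + 1) ⋯ (2/α + k - 1) / (k! (1 + α k))`. -/
noncomputable def b (α : ℝ) (k : ℕ) : ℝ :=
  (∏ i ∈ Finset.range k, (2 / α + i)) / (k.factorial * (1 + α * k))

/-- The explicit values: the coefficient of `X ^ (n - 1)` in the binomial series
`∑_j binom(α, j) (∑_{k ≥ 1} b_k X ^ k) ^ j` of `(∑_k b_k X ^ k) ^ α` (only the terms with `j < n`
contribute). -/
noncomputable def value (α : ℝ) (n : ℕ) : ℝ :=
  ∑ j ∈ Finset.range n, (∏ i ∈ Finset.range j, (α - i)) / j.factorial *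
    PowerSeries.coeff (n - 1) ((PowerSeries.mk (b α) - 1) ^ j)

/-- For `0 < α < 1` and every `n`, the supremum `A_n(α)` is a maximum and equals `value α n`, and
one and the same function of `M(α)` attains it for every `n`. -/
theorem result (α : ℝ) (h0 : 0 < α) (h1 : α < 1) :
    (∀ n, A α n = value α n ∧
      IsGreatest {x | ∃ f ∈ AlphaConvex α, x = ‖taylorCoeff f n‖} (value α n)) ∧
      ∃ k ∈ AlphaConvex α, ∀ n, taylorCoeff k n = (value α n : ℂ) := by
  obtain ⟨k, hk, g, dg, g0, e, o⟩ := Run7.h196.AC.exK h0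
  have hc : ∀ n, taylorCoeff k n = (value α n : ℂ) :=
    Run7.h196.AC.coeff_k h0 hk.2.2.1 dg g0 e o
  have hb : ∀ f ∈ AlphaConvex α, ∀ n, ‖taylorCoeff f n‖ ≤ value α n :=
    fun f hf n => Run7.h196.AC.bound h0 h1 hf n
  have hg : ∀ n, IsGreatest {x | ∃ f ∈ AlphaConvex α, x = ‖taylorCoeff f n‖} (value α n) := by
    refine fun n => ⟨⟨k, hk, ?_⟩, ?_⟩
    · have := (norm_nonneg _).trans (hb k hk n)
      rw [hc, Complex.norm_real, Real.norm_of_nonneg this]
    · rintro _ ⟨f, hf, rfl⟩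
      exact hb f hf n
  exact ⟨fun n => ⟨(hg n).csSup_eq, hg n⟩, k, hk, hc⟩

end Pool.Agent.Results.MP_1f2de8_an.SharpBounds
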